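import Pool.Agent.V11249.GecHom

set_option autoImplicit false

namespace Pool.Agent.Results.MP_0b7070_lc.CountablePalette

open Cardinal

universe u v

/-- `(V, κ)` is a graph with edge-colouring with pseudocolour `e`. -/
def IsGEC {V : Type u} {C : Type v} (κ : V → V → C) (e : C) : Prop :=
  (∀ x y, κ x y = κ y x) ∧ ∀ x y, κ x y = e ↔ x = y

/-- The palette: the colours of pairs of distinct vertices. -/
def palette {V : Type u} {C : Type v} (κ : V → V → C) : Set C :=
  {c | ∃ x y, x ≠ y ∧ κ x y = c}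

/-- Absolute homogeneity: every partial morphism, defined on an arbitrary set of vertices,
extends to an automorphism. -/
def AbsolutelyHomogeneous {V : Type u} {C : Type v} (κ : V → V → C) : Prop :=
  ∀ (A : Set V) (f : A → V), (∀ x y : A, κ (f x) (f y) = κ x y) →
    ∃ g : V ≃ V, (∀ x y, κ (g x) (g y) = κ x y) ∧ ∀ x : A, g x = f x

/-- No absolutely homogeneous GEC with countable palette has size strictly between `ℵ₀` and
`2 ^ ℵ₀`. -/
theorem result {V : Type u} {C : Type v} (κ : V → V → C) (e : C) (hG : IsGEC κ e)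
    (hhom : AbsolutelyHomogeneous κ) (hpal : #(palette κ) ≤ ℵ₀) :
    ¬ (ℵ₀ < #V ∧ #V < 2 ^ ℵ₀) := by
  rintro ⟨h1, h2⟩
  refine absurd h2 (not_lt.mpr ?_)
  exact V11249.Gec.main (e := e) hhom hG.1 hG.2 (Cardinal.le_aleph0_iff_set_countable.mp hpal) h1

end Pool.Agent.Results.MP_0b7070_lc.CountablePalette
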